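import Pool.Agent.Helper69.QG.St1

set_option autoImplicit false

namespace Pool.Agent.Helper5.QG

open Pool.Agent.Helper69.QG
open Complex Set Metric

private theorem lf_act_CVR (w : W) : ∀ z z' : DD,
    lf (Xm (act w z : DD)) (Xm (act w z' : DD)) = lf (Xm z) (Xm z') := by
  refine cs.simple_induction (p := fun w => ∀ z z' : DD,
    lf (Xm (act w z : DD)) (Xm (act w z' : DD)) = lf (Xm z) (Xm z')) w ?_ ?_ ?_
  · intro s z z'
    have h : act (cs.simple s) = Rp s := act_gen s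
    rw [h, Xm_Rp, Xm_Rp, lf_rf_rf]
  · intro z z'
    rw [map_one]
    rfl
  · intro w w' hw hw' z z'
    rw [map_mul, Equiv.Perm.mul_apply, Equiv.Perm.mul_apply, hw, hw']

private theorem bound_CVR {x y : V3} (hx : lf x x = -1) (hx0 : 0 < x 0) (hy : lf y y = -1) (hy0 : 0 < y 0) :
    y 0 ≤ 2 * x 0 * (-lf x y) := by
  have h1 : x 1 ^ 2 + x 2 ^ 2 = x 0 ^ 2 - 1 := by unfold lf at hx; nlinarith
  have h2 : y 1 ^ 2 + y 2 ^ 2 = y 0 ^ 2 - 1 := by unfold lf at hy; nlinarith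
  set P : ℝ := x 1 * y 1 + x 2 * y 2 with hP
  have h3 : P ^ 2 ≤ (x 0 ^ 2 - 1) * (y 0 ^ 2 - 1) := by
    rw [← h1, ← h2]
    nlinarith [sq_nonneg (x 1 * y 2 - x 2 * y 1)]
  have h4 : -lf x y = x 0 * y 0 - P := by
    unfold lf
    ring
  rw [h4]
  by_contra hcon
  have hcon := not_le.1 hcon
  have h5 : 0 ≤ x 0 ^ 2 - 1 := by nlinarith [sq_nonneg (x 1), sq_nonneg (x 2)]
  have h6 : (2 * x 0 ^ 2 - 1) * y 0 < 2 * x 0 * P := by nlinarith
  have h7 : 0 < (2 * x 0 ^ 2 - 1) * y 0 := by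
    apply mul_pos _ hy0
    linarith
  have h8 : ((2 * x 0 ^ 2 - 1) * y 0) ^ 2 < (2 * x 0 * P) ^ 2 := by
    apply pow_lt_pow_left₀ h6 h7.le
    norm_num
  have h9 : (2 * x 0 * P) ^ 2 ≤ 4 * x 0 ^ 2 * ((x 0 ^ 2 - 1) * (y 0 ^ 2 - 1)) := by
    have : (2 * x 0 * P) ^ 2 = 4 * x 0 ^ 2 * P ^ 2 := by ring
    rw [this]
    exact mul_le_mul_of_nonneg_left h3 (by positivity)
  have h10 : 4 * x 0 ^ 2 * ((x 0 ^ 2 - 1) * (y 0 ^ 2 - 1)) ≤ 4 * x 0 ^ 2 * ((x 0 ^ 2 - 1) * y 0 ^ 2) := by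
    apply mul_le_mul_of_nonneg_left _ (by positivity)
    apply mul_le_mul_of_nonneg_left _ h5
    linarith
  have h11 : ((2 * x 0 ^ 2 - 1) * y 0) ^ 2 = 4 * x 0 ^ 2 * ((x 0 ^ 2 - 1) * y 0 ^ 2) + y 0 ^ 2 := by ring
  have h12 : 0 < y 0 ^ 2 := by positivity
  linarith

theorem cCVR (pbd : St_PBD) (lfz : St_LFZ) : St_CVR := by
  intro z
  obtain ⟨y, hy⟩ := pbd.2.2.1
  let g : W → ℝ := fun w => -lf (Xm (act w z : DD)) (Xm y)
  have hg : ∀ w : W, g w = -lf (Xm z) (Xm (act w⁻¹ y : DD)) := by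
    intro w
    have h := lf_act_CVR w z (act w⁻¹ y)
    rw [← h, ← Equiv.Perm.mul_apply, ← map_mul, mul_inv_cancel, map_one]
    rfl
  have hfin : ∀ K : ℝ, {w : W | g w ≤ K}.Finite := by
    intro K
    have h1 := lfz y hy (2 * Xm z 0 * K)
    have h2 := h1.preimage (f := fun w : W => w⁻¹) inv_injective.injOn
    refine h2.subset ?_
    intro w hw
    have hw1 : g w ≤ K := hw
    have h3 := Xm_hyp z.2
    have h4 := Xm_hyp (act w⁻¹ y : DD).2
    have h5 := bound_CVR h3.1 h3.2 h4.1 h4.2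
    rw [← hg w] at h5
    change Xm (act w⁻¹ y : DD) 0 ≤ 2 * Xm z 0 * K
    refine h5.trans ?_
    apply mul_le_mul_of_nonneg_left hw1
    linarith [h3.2]
  obtain ⟨a, ha, hmin⟩ := Set.exists_min_image {w : W | g w ≤ g 1} g (hfin _) ⟨1, le_refl (g 1)⟩
  have hmin' : ∀ b : W, g a ≤ g b := by
    intro b
    by_cases hb : g b ≤ g 1
    · exact hmin b hb
    · exact (show g a ≤ g 1 from ha).trans (not_le.1 hb).le
  refine ⟨a, fun s => ?_⟩
  have h1 := hmin' (gen s * a)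
  have e : g (gen s * a) = g a + 2 * lf (Xm (act a z : DD)) (ev s) * lf (ev s) (Xm y) := by
    change -lf (Xm (act (gen s * a) z : DD)) (Xm y) = -lf (Xm (act a z : DD)) (Xm y) + _
    rw [map_mul, Equiv.Perm.mul_apply, act_gen, Xm_Rp, lf_rf]
    ring
  rw [e] at h1
  have h2 : 0 < lf (ev s) (Xm y) := by
    rw [lf_comm]
    exact hy s
  by_contra hneg
  have hneg := not_le.1 hneg
  have h3 : 2 * lf (Xm (act a z : DD)) (ev s) * lf (ev s) (Xm y) < 0 := by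
    apply mul_neg_of_neg_of_pos _ h2
    linarith
  linarith

end Pool.Agent.Helper5.QG
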