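import Pool.Agent.Helper69.QG.St2

set_option autoImplicit false

namespace Pool.Agent.Helper5.QG

open Pool.Agent.Helper69.QG
open Complex Set Metric

open Classical in
/-- first half of the shear on the square -/
private noncomputable def g0 (u : ℂ) : DD :=
  if 1 ≤ u.re + u.im then pt ⟨u.re + u.im - 1, u.im⟩ else act (gen 0) (pt ⟨1 - u.re - u.im, u.im⟩)

open Classical in
/-- second half of the shear on the square -/
private noncomputable def g1 (u : ℂ) : DD :=
  if u.re ≤ u.im then act (gen 0) (pt ⟨1 + u.re - u.im, u.im⟩)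
  else act (gen 0 * gen 1) (pt ⟨1 - u.re + u.im, u.im⟩)

private theorem act_act (s : Fin 4) (z : DD) : act (gen s) (act (gen s) z) = z := by
  rw [act_gen]
  exact Subtype.ext (R_R s z.2)

private theorem gen_gen (s : Fin 4) : gen s * gen s = 1 := cs.simple_mul_simple_self s

private theorem gen_inv (s : Fin 4) : (gen s)⁻¹ = gen s := cs.inv_simple s

private theorem act_12 (z : DD) : act (gen 1) (act (gen 2) z) = act (gen 2) (act (gen 1) z) := by
  apply DD_ext
  rw [act_gen, act_gen, Xm_Rp, Xm_Rp, Xm_Rp, Xm_Rp, rf_comm ev12]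

private theorem mem_Ev (s : Fin 4) : gen s * gen 0 ∈ Ev := by
  unfold Ev gen
  rw [MonoidHom.mem_ker, map_mul, cs.lengthParity_simple, cs.lengthParity_simple]
  rfl

private theorem act_two (v w : W) (z : DD) : act (v * w) z = act v (act w z) := by
  rw [map_mul, Equiv.Perm.mul_apply]

private theorem cont_mk {f g : ℂ → ℝ} (hf : Continuous f) (hg : Continuous g) :
    Continuous (fun u : ℂ => (⟨f u, g u⟩ : ℂ)) := by
  have e : (fun u : ℂ => (⟨f u, g u⟩ : ℂ)) = fun u => (f u : ℂ) + (g u : ℂ) * I := by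
    funext u
    apply Complex.ext <;> simp
  rw [e]
  exact (continuous_ofReal.comp hf).add ((continuous_ofReal.comp hg).mul continuous_const)

private theorem closed_Sq : IsClosed Sq := by
  have e : Sq = {u : ℂ | 0 ≤ u.re} ∩ ({u : ℂ | u.re ≤ 1} ∩ ({u : ℂ | 0 ≤ u.im} ∩ {u : ℂ | u.im ≤ 1})) := by
    ext u
    rfl
  rw [e]
  exact (isClosed_le continuous_const continuous_re).inter ((isClosed_le continuous_re continuous_const).inter
    ((isClosed_le continuous_const continuous_im).inter (isClosed_le continuous_im continuous_const)))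

theorem cSHE (pch : St_PCH) (aut : St_AUT) (fld : St_FLD) (flc : St_FLC) (cta : St_CTA) : St_SHE := by
  obtain ⟨φ, hφ⟩ := aut.1
  obtain ⟨pc1, pc2, pc3, pc4, pc5⟩ := pch
  -- walls
  have w0 : ∀ u ∈ Sq, u.re = 0 → act (gen 0) (pt u) = pt u := fun u hu h =>
    ((pc5 _ (pc2 u hu).1).1).2 (by rw [(pc2 u hu).2.2]; exact h)
  have w1 : ∀ u ∈ Sq, u.re = 1 → act (gen 1) (pt u) = pt u := fun u hu h =>
    ((pc5 _ (pc2 u hu).1).2.1).2 (by rw [(pc2 u hu).2.2]; exact h)
  have w2 : ∀ u ∈ Sq, u.im = 0 → act (gen 2) (pt u) = pt u := fun u hu h =>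
    ((pc5 _ (pc2 u hu).1).2.2.1).2 (by rw [(pc2 u hu).2.2]; exact h)
  have w3 : ∀ u ∈ Sq, u.im = 1 → act (gen 3) (pt u) = pt u := fun u hu h =>
    ((pc5 _ (pc2 u hu).1).2.2.2).2 (by rw [(pc2 u hu).2.2]; exact h)
  -- memberships
  have m0 : ∀ u ∈ Sq, 1 ≤ u.re + u.im → (⟨u.re + u.im - 1, u.im⟩ : ℂ) ∈ Sq := by
    rintro u ⟨h1, h2, h3, h4⟩ h
    exact ⟨by simp only; linarith, by simp only; linarith, h3, h4⟩
  have m1 : ∀ u ∈ Sq, u.re + u.im ≤ 1 → (⟨1 - u.re - u.im, u.im⟩ : ℂ) ∈ Sq := by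
    rintro u ⟨h1, h2, h3, h4⟩ h
    exact ⟨by simp only; linarith, by simp only; linarith, h3, h4⟩
  have m2 : ∀ u ∈ Sq, u.re ≤ u.im → (⟨1 + u.re - u.im, u.im⟩ : ℂ) ∈ Sq := by
    rintro u ⟨h1, h2, h3, h4⟩ h
    exact ⟨by simp only; linarith, by simp only; linarith, h3, h4⟩
  have m3 : ∀ u ∈ Sq, u.im ≤ u.re → (⟨1 - u.re + u.im, u.im⟩ : ℂ) ∈ Sq := by
    rintro u ⟨h1, h2, h3, h4⟩ h
    exact ⟨by simp only; linarith, by simp only; linarith, h3, h4⟩
  -- formulas
  have e0 : ∀ u : ℂ, 1 ≤ u.re + u.im → g0 u = pt ⟨u.re + u.im - 1, u.im⟩ := fun u h => if_pos h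
  have e1 : ∀ u ∈ Sq, u.re + u.im ≤ 1 → g0 u = act (gen 0) (pt ⟨1 - u.re - u.im, u.im⟩) := by
    intro u hu h
    by_cases h1 : 1 ≤ u.re + u.im
    · have h2 : u.re + u.im = 1 := le_antisymm h h1
      rw [e0 u h1]
      have h3 : (⟨u.re + u.im - 1, u.im⟩ : ℂ) = ⟨1 - u.re - u.im, u.im⟩ := by
        apply Complex.ext
        · simp only
          linarith
        · rfl
      rw [h3]
      refine (w0 _ (m1 u hu h) ?_).symm
      simp only
      linarith
    · exact if_neg h1
  have e2 : ∀ u : ℂ, u.re ≤ u.im → g1 u = act (gen 0) (pt ⟨1 + u.re - u.im, u.im⟩) := fun u h => if_pos h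
  have e3 : ∀ u ∈ Sq, u.im ≤ u.re → g1 u = act (gen 0 * gen 1) (pt ⟨1 - u.re + u.im, u.im⟩) := by
    intro u hu h
    by_cases h1 : u.re ≤ u.im
    · have h2 : u.re = u.im := le_antisymm h1 h
      rw [e2 u h1, act_two]
      have h3 : (⟨1 + u.re - u.im, u.im⟩ : ℂ) = ⟨1 - u.re + u.im, u.im⟩ := by
        apply Complex.ext
        · simp only
          linarith
        · rfl
      rw [h3]
      congr 1
      refine (w1 _ (m3 u hu h) ?_).symm
      simp only
      linarith
    · exact if_neg h1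
  -- continuity of the two halves on the square
  have c0 : ContinuousOn g0 Sq := by
    have k1 : ContinuousOn g0 (Sq ∩ {u : ℂ | 1 ≤ u.re + u.im}) := by
      have h1 : ContinuousOn (fun u : ℂ => pt ⟨u.re + u.im - 1, u.im⟩) (Sq ∩ {u : ℂ | 1 ≤ u.re + u.im}) :=
        pc3.comp (cont_mk ((continuous_re.add continuous_im).sub continuous_const) continuous_im).continuousOn
          (fun u hu => m0 u hu.1 hu.2)
      exact h1.congr fun u hu => e0 u hu.2
    have k2 : ContinuousOn g0 (Sq ∩ {u : ℂ | u.re + u.im ≤ 1}) := by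
      have h1 : ContinuousOn (fun u : ℂ => pt ⟨1 - u.re - u.im, u.im⟩) (Sq ∩ {u : ℂ | u.re + u.im ≤ 1}) :=
        pc3.comp (cont_mk ((continuous_const.sub continuous_re).sub continuous_im) continuous_im).continuousOn
          (fun u hu => m1 u hu.1 hu.2)
      exact ((cta.1 (gen 0)).comp_continuousOn h1).congr fun u hu => e1 u hu.1 hu.2
    refine (k1.union_of_isClosed k2 (closed_Sq.inter (isClosed_le continuous_const
      (continuous_re.add continuous_im))) (closed_Sq.inter (isClosed_le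
      (continuous_re.add continuous_im) continuous_const))).mono ?_
    intro u hu
    rcases le_total 1 (u.re + u.im) with h | h
    · exact Or.inl ⟨hu, h⟩
    · exact Or.inr ⟨hu, h⟩
  have c1 : ContinuousOn g1 Sq := by
    have k1 : ContinuousOn g1 (Sq ∩ {u : ℂ | u.re ≤ u.im}) := by
      have h1 : ContinuousOn (fun u : ℂ => pt ⟨1 + u.re - u.im, u.im⟩) (Sq ∩ {u : ℂ | u.re ≤ u.im}) :=
        pc3.comp (cont_mk ((continuous_const.add continuous_re).sub continuous_im) continuous_im).continuousOn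
          (fun u hu => m2 u hu.1 hu.2)
      exact ((cta.1 (gen 0)).comp_continuousOn h1).congr fun u hu => e2 u hu.2
    have k2 : ContinuousOn g1 (Sq ∩ {u : ℂ | u.im ≤ u.re}) := by
      have h1 : ContinuousOn (fun u : ℂ => pt ⟨1 - u.re + u.im, u.im⟩) (Sq ∩ {u : ℂ | u.im ≤ u.re}) :=
        pc3.comp (cont_mk ((continuous_const.sub continuous_re).add continuous_im) continuous_im).continuousOn
          (fun u hu => m3 u hu.1 hu.2)
      exact ((cta.1 (gen 0 * gen 1)).comp_continuousOn h1).congr fun u hu => e3 u hu.1 hu.2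
    refine (k1.union_of_isClosed k2 (closed_Sq.inter (isClosed_le continuous_re continuous_im))
      (closed_Sq.inter (isClosed_le continuous_im continuous_re))).mono ?_
    intro u hu
    rcases le_total u.re u.im with h | h
    · exact Or.inl ⟨hu, h⟩
    · exact Or.inr ⟨hu, h⟩
  have hpsi : Continuous (fun z : DD => psi (z : ℂ)) :=
    continuousOn_iff_continuous_domRestrict.1 pc4
  -- the extension
  let r : Ev →* Equiv.Perm DD := act.comp (Ev.subtype.comp φ.toMonoidHom)
  have hr : ∀ (w : Ev) (z : DD), r w z = act ((φ w : Ev) : W) z := fun _ _ => rfl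
  obtain ⟨F, hF0, hF1, hF2⟩ := fld DD r (fun z => g0 (psi z)) (fun z => g1 (psi z)) (by
    intro s h z hz hfix
    have hu := (pc1 z hz).1
    set u := psi (z : ℂ) with hudef
    obtain ⟨hu1, hu2, hu3, hu4⟩ := hu
    have hu : u ∈ Sq := ⟨hu1, hu2, hu3, hu4⟩
    fin_cases s
    · have hX : u.re = 0 := (pc5 z hz).1.1 hfix
      have e : (⟨gen 0 * gen 0, h⟩ : Ev) = 1 := Subtype.ext (gen_gen 0)
      change r ⟨gen 0 * gen 0, h⟩ _ = _
      rw [e, map_one, Equiv.Perm.one_apply, e2 u (by rw [hX]; exact hu3), e1 u hu (by rw [hX]; linarith)]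
      congr 2
      apply Complex.ext
      · simp only
        rw [hX]
        ring
      · rfl
    · have hX : u.re = 1 := (pc5 z hz).2.1.1 hfix
      change r ⟨gen 1 * gen 0, h⟩ _ = _
      rw [hr, (hφ h (mem_Ev 2) (mem_Ev 3)).1, e3 u hu (by rw [hX]; exact hu4), e0 u (by rw [hX]; linarith)]
      change act (gen 1 * gen 0) _ = _
      rw [act_two, act_two (gen 0) (gen 1), act_act, act_act]
      congr 1
      apply Complex.ext
      · simp only
        rw [hX]
        ring
      · rfl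
    · have hY : u.im = 0 := (pc5 z hz).2.2.1.1 hfix
      change r ⟨gen 2 * gen 0, h⟩ _ = _
      rw [hr, (hφ (mem_Ev 1) h (mem_Ev 3)).2.1, e3 u hu (by rw [hY]; exact hu1),
        e1 u hu (by rw [hY]; linarith)]
      change act ((gen 1 * gen 0)⁻¹ * (gen 2 * gen 0)) _ = _
      rw [mul_inv_rev, gen_inv, gen_inv, act_two (gen 0 * gen 1), act_two (gen 2), act_two (gen 0) (gen 1),
        act_two (gen 0) (gen 1), act_act, ← act_12, act_act]
      have h3 : (⟨1 - u.re + u.im, u.im⟩ : ℂ) = ⟨1 - u.re - u.im, u.im⟩ := by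
        apply Complex.ext
        · simp only
          rw [hY]
          ring
        · rfl
      rw [h3, w2 _ (m1 u hu (by rw [hY]; linarith)) hY]
    · have hY : u.im = 1 := (pc5 z hz).2.2.2.1 hfix
      change r ⟨gen 3 * gen 0, h⟩ _ = _
      rw [hr, (hφ (mem_Ev 1) (mem_Ev 2) h).2.2, e2 u (by rw [hY]; exact hu2), e0 u (by rw [hY]; linarith)]
      change act (gen 3 * gen 0) _ = _
      have h3 : (⟨1 + u.re - u.im, u.im⟩ : ℂ) = ⟨u.re + u.im - 1, u.im⟩ := by
        apply Complex.ext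
        · simp only
          rw [hY]
          ring
        · rfl
      rw [act_two, act_act, h3, w3 _ (m0 u hu (by rw [hY]; linarith)) hY])
  have hFc : Continuous F := by
    refine flc DD r F (fun w => cta.1 _) ?_ ?_ hF2
    · have h1 : ContinuousOn (fun z : DD => g0 (psi (z : ℂ))) Pc :=
        c0.comp hpsi.continuousOn fun z hz => (pc1 z hz).1
      exact h1.congr fun z hz => hF0 z hz
    · have h1 : ContinuousOn (fun z : DD => g1 (psi ((act (gen 0) z : DD) : ℂ))) (act (gen 0) '' Pc) := by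
        refine c1.comp (hpsi.comp (cta.1 (gen 0))).continuousOn ?_
        rintro _ ⟨z, hz, rfl⟩
        simp only
        rw [act_act]
        exact (pc1 z hz).1
      refine h1.congr ?_
      rintro _ ⟨z, hz, rfl⟩
      simp only
      rw [hF1 z hz, act_act]
  refine ⟨φ, F, hFc, hφ, fun w z => hF2 w z, ?_, ?_, ?_, ?_⟩
  · intro u hu h
    rw [hF0 _ (pc2 u hu).1, (pc2 u hu).2.2, e0 u h]
  · intro u hu h
    rw [hF0 _ (pc2 u hu).1, (pc2 u hu).2.2, e1 u hu h]
  · intro u hu h
    rw [hF1 _ (pc2 u hu).1, (pc2 u hu).2.2, e2 u h]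
  · intro u hu h
    rw [hF1 _ (pc2 u hu).1, (pc2 u hu).2.2, e3 u hu h]

end Pool.Agent.Helper5.QG
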